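import Pool.Agent.J4.H2.PA.Defs

/-!
# The base group of the wreath product: indices, conjugation invariance (project PA, piece WRE)
-/

set_option autoImplicit false
set_option linter.unusedSectionVars false

open scoped BigOperators Classical

noncomputable section

namespace Pool.Agent.J4.H10.PA

open Pool.Agent.Q90.WR Pool.Agent.H254R3.IN Pool.Agent.Q259.BW Pool.Agent.Q288.MB
open Pool.Agent.Helper884
open Pool.Agent.N19.RB (tens Tens piS)
open Pool.Agent.J4.H2.PA

section base

variable (J Q : Type) [Group J] [Group Q]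

/-- the base group of the wreath product -/
def X0 : Subgroup (RegularWreathProduct J Q) :=
  (RegularWreathProduct.rightHom (D := J) (Q := Q)).ker

instance : (X0 J Q).Normal := inferInstanceAs (MonoidHom.ker _).Normal

variable {J Q} in
theorem mem_X0 {w : RegularWreathProduct J Q} : w ∈ X0 J Q ↔ w.right = 1 := Iff.rfl

/-- the base group is a direct power -/
def e0 : X0 J Q ≃* (Q → J) where
  toFun w := w.1.left
  invFun f := ⟨⟨f, 1⟩, rfl⟩
  left_inv := by
    rintro ⟨⟨a, b⟩, h⟩
    have hb : b = 1 := h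
    subst hb
    rfl
  right_inv f := rfl
  map_mul' := by
    rintro ⟨⟨a, b⟩, h⟩ ⟨⟨a', b'⟩, h'⟩
    have hb : b = 1 := h
    have hb' : b' = 1 := h'
    subst hb
    subst hb'
    funext x
    change a x * a' ((1 : Q)⁻¹ * x) = a x * a' x
    rw [inv_one, one_mul]

end base

section idx

variable {J A : Type} [Group J] [CommGroup A] (a : J →* A) (Q : Type) [Group Q] [Fintype Q]

theorem commutator_X0 : commutator (X0 J Q) ≤ (sa a Q).ker.subgroupOf (X0 J Q) := by
  have h : (sa a Q).ker.subgroupOf (X0 J Q) = ((sa a Q).comp (X0 J Q).subtype).ker := by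
    ext x
    rfl
  rw [h]
  exact Abelianization.commutator_subset_ker _

theorem index_ker_le [Finite A] : ((sa a Q).ker.subgroupOf (X0 J Q)).index ≤ Nat.card A := by
  have h : (sa a Q).ker.subgroupOf (X0 J Q) = ((sa a Q).comp (X0 J Q).subtype).ker := by
    ext x
    rfl
  rw [h, Subgroup.index_ker]
  exact Subgroup.card_le_card_group _

theorem index_X0_dvd : ((X0 J Q).subgroupOf (sa a Q).ker).index ∣ Nat.card Q := by
  have h : (X0 J Q).subgroupOf (sa a Q).ker =
      ((RegularWreathProduct.rightHom (D := J) (Q := Q)).comp (sa a Q).ker.subtype).ker := by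
    ext x
    rfl
  rw [h, Subgroup.index_ker]
  exact Subgroup.card_subgroup_dvd_card _

end idx

section conj

variable {J Q : Type} [Group J] [Finite J] [Group Q] [Fintype Q]

theorem conj_inv (B : Set (J → ℂ)) (hB : ∀ χ ∈ B, IsIrr χ) (w : RegularWreathProduct J Q)
    (χ : X0 J Q → ℂ) (hχ : χ ∈ pull (e0 J Q) (Tens fun _ : Q => B)) :
    (fun x : X0 J Q => χ (MulAut.conjNormal w x)) ∈ pull (e0 J Q) (Tens fun _ : Q => B) := by
  obtain ⟨θ, hθ, he⟩ := hχ
  refine ⟨fun i => θ (w.right * i), fun i => hθ _, ?_⟩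
  funext k
  have h1 : χ (MulAut.conjNormal w ((e0 J Q).symm k)) =
      (fun k => χ ((e0 J Q).symm k)) ((e0 J Q) (MulAut.conjNormal w ((e0 J Q).symm k))) := by
    simp only [MulEquiv.symm_apply_apply]
  have h2 : (e0 J Q) (MulAut.conjNormal w ((e0 J Q).symm k)) =
      fun i => w.left i * k (w.right⁻¹ * i) * (w.left i)⁻¹ := by
    funext i
    have h3 : (((MulAut.conjNormal w ((e0 J Q).symm k) : X0 J Q)) : RegularWreathProduct J Q) =
        w * ⟨k, 1⟩ * w⁻¹ := MulAut.conjNormal_apply w _
    change (((MulAut.conjNormal w ((e0 J Q).symm k) : X0 J Q)) :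
      RegularWreathProduct J Q).left i = _
    rw [h3]
    obtain ⟨u, q⟩ := w
    change u i * k (q⁻¹ * i) * (u (q * ((q * 1)⁻¹ * i)))⁻¹ = u i * k (q⁻¹ * i) * (u i)⁻¹
    rw [mul_one, mul_inv_cancel_left]
  show χ (MulAut.conjNormal w ((e0 J Q).symm k)) = _
  rw [h1, he, h2]
  unfold tens
  refine (Fintype.prod_equiv (Equiv.mulLeft w.right) _ _ fun i => ?_).symm
  have h4 : IsCl (θ (w.right * i)) := by
    obtain ⟨V, _, _, _, ρ, -, hρ⟩ := hB _ (hθ (w.right * i))
    intro g y
    rw [hρ]
    exact Representation.char_conj ρ g y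
  change θ (w.right * i) (k i) = θ (w.right * i) (w.left (w.right * i) *
    k (w.right⁻¹ * (w.right * i)) * (w.left (w.right * i))⁻¹)
  rw [inv_mul_cancel_left]
  exact (h4 _ _).symm

end conj

section ek

variable {J A : Type} [Group J] [CommGroup A] (a : J →* A) (Q : Type) [Group Q] [Fintype Q]

theorem EK_eq (D : Subgroup J) : EK (X0 J Q) (sa a Q).ker
    ((piS fun _ : Q => D).comap (e0 J Q).toMonoidHom) = DQ a Q D := by
  ext w
  constructor
  · rintro ⟨x, hx, hxw⟩
    have h1 : (x : RegularWreathProduct J Q) = (w : RegularWreathProduct J Q) := hxw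
    refine ⟨?_, fun i => ?_⟩
    · rw [← h1]
      exact x.2
    · rw [← h1]
      exact hx i (Set.mem_univ _)
  · rintro ⟨h1, h2⟩
    exact ⟨⟨w.1, h1⟩, fun i _ => h2 i, rfl⟩

end ek

end Pool.Agent.J4.H10.PA
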